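import Mathlib

set_option autoImplicit false

open scoped RealInnerProductSpace

namespace Pool.Agent.Lib.MP_ee7495_gt

abbrev E3 := EuclideanSpace ℝ (Fin 3)

/-- Entry number `k` of a table of 32 bit numbers. -/
def ent (T k : ℕ) : ℕ := Nat.mod (Nat.shiftRight T (Nat.mul 32 k)) 4294967296

/-- Test at one corner. -/
def corner (W2 xi yi zi xj yj zj a1 a2 a3 : ℕ) : Bool :=
  Nat.ble (Nat.mul W2 (Nat.add (Nat.add (Nat.mul a1 a1) (Nat.mul a2 a2)) (Nat.mul a3 a3)))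
    (Nat.pow (Nat.sub (Nat.add (Nat.add (Nat.mul xi a1) (Nat.mul yi a2)) (Nat.mul zi a3))
      (Nat.add (Nat.add (Nat.mul xj a1) (Nat.mul yj a2)) (Nat.mul zj a3))) 2)

/-- Test at three corners. -/
def leaf6 (W2 xi yi zi xj yj zj a1 a2 a3 b1 b2 b3 c1 c2 c3 : ℕ) : Bool :=
  corner W2 xi yi zi xj yj zj a1 a2 a3 && (corner W2 xi yi zi xj yj zj b1 b2 b3 &&
    corner W2 xi yi zi xj yj zj c1 c2 c3)

/-- Test of a leaf. -/
def leaf (T W2 i j a1 a2 a3 b1 b2 b3 c1 c2 c3 : ℕ) : Bool :=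
  Nat.ble i 71 && (Nat.ble j 71 &&
    leaf6 W2 (ent T (Nat.mul 3 i)) (ent T (Nat.add (Nat.mul 3 i) 1))
      (ent T (Nat.add (Nat.mul 3 i) 2))
      (ent T (Nat.mul 3 j)) (ent T (Nat.add (Nat.mul 3 j) 1)) (ent T (Nat.add (Nat.mul 3 j) 2))
      a1 a2 a3 b1 b2 b3 c1 c2 c3)

/-- Stream checker. -/
def chk (T W2 : ℕ) (fuel : ℕ) : ℕ → ℕ → ℕ → ℕ → ℕ → ℕ → ℕ → ℕ → ℕ → ℕ → ℕ :=
  Nat.rec (fun _ _ _ _ _ _ _ _ _ _ => 0)
    (fun _ ih a1 a2 a3 b1 b2 b3 c1 c2 c3 s =>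
      cond (Nat.beq (Nat.mod s 16384) 0)
        ((fun r => cond (Nat.beq r 0) 0
            (ih (Nat.mul 2 c1) (Nat.mul 2 c2) (Nat.mul 2 c3)
              (Nat.mul 2 b1) (Nat.mul 2 b2) (Nat.mul 2 b3)
              (Nat.add a1 b1) (Nat.add a2 b2) (Nat.add a3 b3) r))
          (ih (Nat.mul 2 a1) (Nat.mul 2 a2) (Nat.mul 2 a3)
            (Nat.mul 2 c1) (Nat.mul 2 c2) (Nat.mul 2 c3)
            (Nat.add a1 b1) (Nat.add a2 b2) (Nat.add a3 b3) (Nat.div s 16384)))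
        (cond (leaf T W2 (Nat.div (Nat.mod s 16384) 128) (Nat.mod s 128)
            a1 a2 a3 b1 b2 b3 c1 c2 c3) (Nat.div s 16384) 0)) fuel

/-- Top part of a certificate. -/
inductive Tr : Type
  | st (s : ℕ) : Tr
  | nd (l r : Tr) : Tr

/-- Checker for the top part. -/
noncomputable def top (T W2 : ℕ) (t : Tr) : ℕ → ℕ → ℕ → ℕ → ℕ → ℕ → ℕ → ℕ → ℕ → Bool :=
  Tr.rec (fun s a1 a2 a3 b1 b2 b3 c1 c2 c3 => Nat.beq (chk T W2 60 a1 a2 a3 b1 b2 b3 c1 c2 c3 s) 1)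
    (fun _ _ il ir a1 a2 a3 b1 b2 b3 c1 c2 c3 =>
      il (Nat.mul 2 a1) (Nat.mul 2 a2) (Nat.mul 2 a3)
          (Nat.mul 2 c1) (Nat.mul 2 c2) (Nat.mul 2 c3)
          (Nat.add a1 b1) (Nat.add a2 b2) (Nat.add a3 b3) &&
        ir (Nat.mul 2 c1) (Nat.mul 2 c2) (Nat.mul 2 c3)
          (Nat.mul 2 b1) (Nat.mul 2 b2) (Nat.mul 2 b3)
          (Nat.add a1 b1) (Nat.add a2 b2) (Nat.add a3 b3)) t

/-- A vector with natural coordinates. -/
noncomputable def vec (a1 a2 a3 : ℕ) : E3 := !₂[(a1 : ℝ), (a2 : ℝ), (a3 : ℝ)]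

/-- Point number `i` of a table. -/
noncomputable def pt (T i : ℕ) : E3 := vec (ent T (3 * i)) (ent T (3 * i + 1)) (ent T (3 * i + 2))

/-- On the cone spanned by `a b c` the width is at least `W`. -/
def Good (T W : ℕ) (a b c : E3) : Prop :=
  ∀ α β γ : ℝ, 0 ≤ α → 0 ≤ β → 0 ≤ γ → ∃ i ≤ 71, ∃ j ≤ 71,
    (W : ℝ) * ‖α • a + β • b + γ • c‖ ≤ ⟪pt T i - pt T j, α • a + β • b + γ • c⟫

theorem good_split {T W : ℕ} {a b c : E3} (h1 : Good T W ((2 : ℝ) • a) ((2 : ℝ) • c) (a + b))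
    (h2 : Good T W ((2 : ℝ) • c) ((2 : ℝ) • b) (a + b)) : Good T W a b c := by
  intro α β γ hα hβ hγ
  rcases le_total β α with h | h
  · have := h1 ((α - β) / 2) (γ / 2) β (by linarith) (by linarith) hβ
    have e : ((α - β) / 2) • (2 : ℝ) • a + (γ / 2) • (2 : ℝ) • c + β • (a + b)
        = α • a + β • b + γ • c := by module
    rwa [e] at this
  · have := h2 (γ / 2) ((β - α) / 2) α (by linarith) (by linarith) hα
    have e : (γ / 2) • (2 : ℝ) • c + ((β - α) / 2) • (2 : ℝ) • b + α • (a + b)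
        = α • a + β • b + γ • c := by module
    rwa [e] at this

theorem vec_two (a1 a2 a3 : ℕ) :
    vec (Nat.mul 2 a1) (Nat.mul 2 a2) (Nat.mul 2 a3) = (2 : ℝ) • vec a1 a2 a3 := by
  ext k
  fin_cases k <;> simp [vec]

theorem vec_add (a1 a2 a3 b1 b2 b3 : ℕ) :
    vec (Nat.add a1 b1) (Nat.add a2 b2) (Nat.add a3 b3) = vec a1 a2 a3 + vec b1 b2 b3 := by
  ext k
  fin_cases k <;> simp [vec]

theorem corner_sound {W xi yi zi xj yj zj a1 a2 a3 : ℕ} (hW : 0 < W)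
    (h : corner (W * W) xi yi zi xj yj zj a1 a2 a3 = true) :
    (W : ℝ) * ‖vec a1 a2 a3‖ ≤ ⟪vec xi yi zi - vec xj yj zj, vec a1 a2 a3⟫ := by
  unfold corner at h
  rw [Nat.ble_eq] at h
  simp only [Nat.mul_eq, Nat.add_eq, Nat.sub_eq, Nat.pow_eq] at h
  have hn : ‖vec a1 a2 a3‖ ^ 2 = ((a1 * a1 + a2 * a2 + a3 * a3 : ℕ) : ℝ) := by
    rw [EuclideanSpace.real_norm_sq_eq]
    simp [vec, Fin.sum_univ_three]
    ring
  have hi : ⟪vec xi yi zi - vec xj yj zj, vec a1 a2 a3⟫ =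
      ((xi * a1 + yi * a2 + zi * a3 : ℕ) : ℝ) - ((xj * a1 + yj * a2 + zj * a3 : ℕ) : ℝ) := by
    simp [vec, Fin.sum_univ_three, PiLp.inner_apply]
    ring
  rw [hi]
  rcases le_total (xj * a1 + yj * a2 + zj * a3) (xi * a1 + yi * a2 + zi * a3) with hle | hle
  · rw [← Nat.cast_sub hle]
    refine le_of_sq_le_sq ?_ (Nat.cast_nonneg _)
    rw [mul_pow, hn]
    have : ((W * W * (a1 * a1 + a2 * a2 + a3 * a3) : ℕ) : ℝ) ≤
        (((xi * a1 + yi * a2 + zi * a3 - (xj * a1 + yj * a2 + zj * a3)) ^ 2 : ℕ) : ℝ) := by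
      exact_mod_cast h
    rw [Nat.cast_mul, Nat.cast_mul, Nat.cast_pow] at this
    rw [sq (W : ℝ)]
    exact this
  · rw [Nat.sub_eq_zero_of_le hle] at h
    have h0 : a1 * a1 + a2 * a2 + a3 * a3 = 0 := by
      have h2 : W * W * (a1 * a1 + a2 * a2 + a3 * a3) = 0 := by simpa using h
      rcases Nat.mul_eq_zero.1 h2 with h3 | h3
      · exact absurd h3 (Nat.mul_pos hW hW).ne'
      · exact h3
    have e1 : a1 = 0 := by nlinarith
    have e2 : a2 = 0 := by nlinarith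
    have e3 : a3 = 0 := by nlinarith
    rw [h0] at hn
    have : ‖vec a1 a2 a3‖ = 0 := by simpa using hn
    rw [this, e1, e2, e3]
    simp

theorem good_of_three {T W i j : ℕ} {a b c : E3} (hi : i ≤ 71) (hj : j ≤ 71)
    (ha : (W : ℝ) * ‖a‖ ≤ ⟪pt T i - pt T j, a⟫) (hb : (W : ℝ) * ‖b‖ ≤ ⟪pt T i - pt T j, b⟫)
    (hc : (W : ℝ) * ‖c‖ ≤ ⟪pt T i - pt T j, c⟫) : Good T W a b c := by
  intro α β γ hα hβ hγ
  refine ⟨i, hi, j, hj, ?_⟩
  have h1 : ‖α • a + β • b + γ • c‖ ≤ α * ‖a‖ + β * ‖b‖ + γ * ‖c‖ := by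
    refine norm_add₃_le.trans ?_
    simp [norm_smul, abs_of_nonneg, hα, hβ, hγ]
  rw [inner_add_right, inner_add_right, real_inner_smul_right, real_inner_smul_right,
    real_inner_smul_right]
  have hW : (0 : ℝ) ≤ W := Nat.cast_nonneg W
  calc (W : ℝ) * ‖α • a + β • b + γ • c‖ ≤ W * (α * ‖a‖ + β * ‖b‖ + γ * ‖c‖) := by gcongr
    _ = α * (W * ‖a‖) + β * (W * ‖b‖) + γ * (W * ‖c‖) := by ring
    _ ≤ _ := by gcongr

theorem leaf_sound {T W i j a1 a2 a3 b1 b2 b3 c1 c2 c3 : ℕ} (hW : 0 < W)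
    (h : leaf T (W * W) i j a1 a2 a3 b1 b2 b3 c1 c2 c3 = true) :
    Good T W (vec a1 a2 a3) (vec b1 b2 b3) (vec c1 c2 c3) := by
  simp only [leaf, leaf6, Bool.and_eq_true, Nat.ble_eq] at h
  obtain ⟨hi, hj, h1, h2, h3⟩ := h
  exact good_of_three hi hj (corner_sound hW h1) (corner_sound hW h2) (corner_sound hW h3)

theorem chk_sound {T W : ℕ} (hW : 0 < W) (fuel : ℕ) : ∀ a1 a2 a3 b1 b2 b3 c1 c2 c3 s : ℕ,
    chk T (W * W) fuel a1 a2 a3 b1 b2 b3 c1 c2 c3 s ≠ 0 →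
      Good T W (vec a1 a2 a3) (vec b1 b2 b3) (vec c1 c2 c3) := by
  induction fuel with
  | zero => intro a1 a2 a3 b1 b2 b3 c1 c2 c3 s h; exact absurd rfl h
  | succ n ih =>
    intro a1 a2 a3 b1 b2 b3 c1 c2 c3 s h
    have e : chk T (W * W) (n + 1) a1 a2 a3 b1 b2 b3 c1 c2 c3 s =
        cond (Nat.beq (Nat.mod s 16384) 0)
        ((fun r => cond (Nat.beq r 0) 0
            (chk T (W * W) n (Nat.mul 2 c1) (Nat.mul 2 c2) (Nat.mul 2 c3)
              (Nat.mul 2 b1) (Nat.mul 2 b2) (Nat.mul 2 b3)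
              (Nat.add a1 b1) (Nat.add a2 b2) (Nat.add a3 b3) r))
          (chk T (W * W) n (Nat.mul 2 a1) (Nat.mul 2 a2) (Nat.mul 2 a3)
            (Nat.mul 2 c1) (Nat.mul 2 c2) (Nat.mul 2 c3)
            (Nat.add a1 b1) (Nat.add a2 b2) (Nat.add a3 b3) (Nat.div s 16384)))
        (cond (leaf T (W * W) (Nat.div (Nat.mod s 16384) 128) (Nat.mod s 128)
            a1 a2 a3 b1 b2 b3 c1 c2 c3) (Nat.div s 16384) 0) := rfl
    rw [e] at h
    cases h1 : Nat.beq (Nat.mod s 16384) 0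
    · rw [h1, cond_false] at h
      cases h2 : leaf T (W * W) (Nat.div (Nat.mod s 16384) 128) (Nat.mod s 128)
            a1 a2 a3 b1 b2 b3 c1 c2 c3
      · rw [h2] at h; exact absurd rfl h
      · exact leaf_sound hW h2
    · rw [h1, cond_true] at h
      beta_reduce at h
      cases h2 : Nat.beq (chk T (W * W) n (Nat.mul 2 a1) (Nat.mul 2 a2) (Nat.mul 2 a3)
            (Nat.mul 2 c1) (Nat.mul 2 c2) (Nat.mul 2 c3)
            (Nat.add a1 b1) (Nat.add a2 b2) (Nat.add a3 b3) (Nat.div s 16384)) 0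
      · rw [h2, cond_false] at h
        have g1 := ih _ _ _ _ _ _ _ _ _ _ (Nat.ne_of_beq_eq_false h2)
        have g2 := ih _ _ _ _ _ _ _ _ _ _ h
        rw [vec_two, vec_two, vec_add] at g1 g2
        exact good_split g1 g2
      · rw [h2] at h; exact absurd rfl h

theorem top_sound {T W : ℕ} (hW : 0 < W) (t : Tr) : ∀ a1 a2 a3 b1 b2 b3 c1 c2 c3 : ℕ,
    top T (W * W) t a1 a2 a3 b1 b2 b3 c1 c2 c3 = true →
      Good T W (vec a1 a2 a3) (vec b1 b2 b3) (vec c1 c2 c3) := by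
  induction t with
  | st s =>
    intro a1 a2 a3 b1 b2 b3 c1 c2 c3 h
    have h1 : Nat.beq (chk T (W * W) 60 a1 a2 a3 b1 b2 b3 c1 c2 c3 s) 1 = true := h
    refine chk_sound hW 60 _ _ _ _ _ _ _ _ _ s ?_
    rw [Nat.eq_of_beq_eq_true h1]
    exact one_ne_zero
  | nd l r il ir =>
    intro a1 a2 a3 b1 b2 b3 c1 c2 c3 h
    have h1 : (top T (W * W) l (Nat.mul 2 a1) (Nat.mul 2 a2) (Nat.mul 2 a3)
          (Nat.mul 2 c1) (Nat.mul 2 c2) (Nat.mul 2 c3)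
          (Nat.add a1 b1) (Nat.add a2 b2) (Nat.add a3 b3) &&
        top T (W * W) r (Nat.mul 2 c1) (Nat.mul 2 c2) (Nat.mul 2 c3)
          (Nat.mul 2 b1) (Nat.mul 2 b2) (Nat.mul 2 b3)
          (Nat.add a1 b1) (Nat.add a2 b2) (Nat.add a3 b3)) = true := h
    rw [Bool.and_eq_true] at h1
    have g1 := il _ _ _ _ _ _ _ _ _ h1.1
    have g2 := ir _ _ _ _ _ _ _ _ _ h1.2
    rw [vec_two, vec_two, vec_add] at g1 g2
    exact good_split g1 g2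

end Pool.Agent.Lib.MP_ee7495_gt
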