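import Pool.Agent.Lib.MP_ee7495_gt.Check
import Pool.Agent.Lib.MP_ee7495_gt.Tables

set_option autoImplicit false

namespace Pool.Agent.Lib.MP_ee7495_gt

/-- Certificate. -/
def certMM : Tr :=
 (.st 0x4017005d8170000000605c017005c017005d81700000000000000605c01700000170000017000001700000470000000000001700000470000000011d847611c0470000000011c047011d847605d817605d817605c017005d8170000000605d817605d817611c00000000000000017000004700000000000000611c000611c000000000000000170000000005d8170001817000000000000000001817611c000611c000611c000611c000000181700000000001817611c000611c0000000000611c047000004700000000f1d84700017470000000)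

theorem checkMM : top tabMM (9999700 * 9999700) certMM 1 0 0 0 1 0 0 0 1 = true := by
  decide +kernel

theorem goodMM : Good tabMM 9999700 (vec 1 0 0) (vec 0 1 0) (vec 0 0 1) :=
  top_sound (by norm_num) _ _ _ _ _ _ _ _ _ _ checkMM

end Pool.Agent.Lib.MP_ee7495_gt
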