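import Mathlib
import Pool.Agent.Lib.MP_ee7495_gt.OctPP
import Pool.Agent.Lib.MP_ee7495_gt.OctPM
import Pool.Agent.Lib.MP_ee7495_gt.OctMP
import Pool.Agent.Lib.MP_ee7495_gt.OctMM

set_option autoImplicit false

open scoped RealInnerProductSpace
open Set

namespace Pool.Agent.Lib.MP_ee7495_gt

theorem evar_segment {E : Type*} [NormedAddCommGroup E] [NormedSpace ℝ E] (p v : E) (a : ℝ) :
    eVariationOn (fun t : ℝ => p + (t - a) • v) (Icc a (a + 1)) = ENNReal.ofReal ‖v‖ := by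
  apply le_antisymm
  · refine iSup_le ?_
    rintro ⟨n, u, hu, us⟩
    have h1 : ∀ i, edist (p + (u (i + 1) - a) • v) (p + (u i - a) • v)
        = ENNReal.ofReal ((u (i + 1) - u i) * ‖v‖) := by
      intro i
      rw [edist_dist, dist_eq_norm]
      congr 1
      have : p + (u (i + 1) - a) • v - (p + (u i - a) • v) = (u (i + 1) - u i) • v := by module
      rw [this, norm_smul, Real.norm_eq_abs, abs_of_nonneg (sub_nonneg.2 (hu (Nat.le_succ i)))]
    simp only [h1]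
    rw [← ENNReal.ofReal_sum_of_nonneg
      (fun i _ => mul_nonneg (sub_nonneg.2 (hu (Nat.le_succ i))) (norm_nonneg _)),
      ← Finset.sum_mul, Finset.sum_range_sub]
    apply ENNReal.ofReal_le_ofReal
    have h2 := (us n).2
    have h3 := (us 0).1
    exact mul_le_of_le_one_left (norm_nonneg _) (by linarith)
  · have h := eVariationOn.edist_le (fun t : ℝ => p + (t - a) • v) (s := Icc a (a + 1))
      (x := a + 1) (y := a) (by simp) (by simp)
    rw [edist_dist, dist_eq_norm] at h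
    simpa using h

theorem polygon {E : Type*} [NormedAddCommGroup E] [NormedSpace ℝ E] (q : ℕ → E) (n : ℕ)
    (hn : 0 < n) : ∃ γ : ℝ → E, Continuous γ ∧
      eVariationOn γ (Icc 0 1) = ENNReal.ofReal (∑ i ∈ Finset.range n, ‖q (i + 1) - q i‖) ∧
      ∀ i ≤ n, ∃ t ∈ Icc (0 : ℝ) 1, γ t = q i := by
  set Γ : ℝ → E := fun t =>
    q 0 + ∑ i ∈ Finset.range n, (max 0 (min 1 (t - i))) • (q (i + 1) - q i) with hΓ
  have hΓc : Continuous Γ := by
    simp only [hΓ]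
    fun_prop
  have hseg : ∀ k < n, ∀ t ∈ Icc (k : ℝ) (k + 1), Γ t = q k + (t - k) • (q (k + 1) - q k) := by
    intro k hk t ht
    obtain ⟨m, rfl⟩ : ∃ m, n = (k + 1) + m := ⟨n - (k + 1), by omega⟩
    simp only [hΓ]
    rw [Finset.sum_range_add, Finset.sum_range_succ]
    have e1 : ∑ i ∈ Finset.range k, (max 0 (min 1 (t - i))) • (q (i + 1) - q i) = q k - q 0 := by
      rw [← Finset.sum_range_sub]
      refine Finset.sum_congr rfl fun i hi => ?_
      have : (i : ℝ) + 1 ≤ k := by exact_mod_cast Finset.mem_range.1 hi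
      rw [min_eq_left (by linarith [ht.1]), max_eq_right zero_le_one, one_smul]
    have e2 : ∑ i ∈ Finset.range m,
        (max 0 (min 1 (t - ((k + 1 + i : ℕ) : ℝ)))) • (q (k + 1 + i + 1) - q (k + 1 + i)) = 0 := by
      refine Finset.sum_eq_zero fun i _ => ?_
      have h0 : (0 : ℝ) ≤ i := Nat.cast_nonneg i
      have : t - ((k + 1 + i : ℕ) : ℝ) ≤ 0 := by push_cast; linarith [ht.2]
      rw [max_eq_left ((min_le_right _ _).trans this), zero_smul]
    rw [e1, e2, min_eq_right (by linarith [ht.2]), max_eq_right (by linarith [ht.1])]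
    abel
  have hn' : (0 : ℝ) < n := by exact_mod_cast hn
  refine ⟨Γ ∘ fun t => (n : ℝ) * t, hΓc.comp (by fun_prop), ?_, ?_⟩
  · rw [eVariationOn.comp_eq_of_monotoneOn Γ _
      (fun x _ y _ hxy => mul_le_mul_of_nonneg_left hxy hn'.le)]
    have e : (fun t => (n : ℝ) * t) '' Icc 0 1 = Icc ((0 : ℕ) : ℝ) (n : ℝ) := by
      rw [image_mul_left_Icc hn'.le zero_le_one]; simp
    rw [e, ← eVariationOn.sum' Γ (I := fun i : ℕ => (i : ℝ)) Nat.mono_cast,
      ENNReal.ofReal_sum_of_nonneg (fun i _ => norm_nonneg _)]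
    refine Finset.sum_congr rfl fun k hk => ?_
    rw [← evar_segment (q k) (q (k + 1) - q k) k]
    push_cast
    exact eVariationOn.eq_of_eqOn fun t ht => hseg k (Finset.mem_range.1 hk) t ht
  · intro i hi
    have hi' : (i : ℝ) ≤ n := by exact_mod_cast hi
    refine ⟨i / n, ⟨by positivity, (div_le_one hn').2 hi'⟩, ?_⟩
    simp only [Function.comp_apply, mul_div_cancel₀ _ hn'.ne']
    rcases hi.lt_or_eq with h | h
    · rw [hseg i h i ⟨le_rfl, by linarith⟩]; simp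
    · obtain ⟨k, rfl⟩ : ∃ k, i = k + 1 := ⟨i - 1, by omega⟩
      rw [hseg k (by omega) _ ⟨by push_cast; linarith, by push_cast; linarith⟩]
      push_cast
      simp

theorem tabs : ∀ i ≤ 71,
    (ent tabPM (3 * i) = ent tabPP (3 * i) ∧
      ent tabPM (3 * i + 1) + ent tabPP (3 * i + 1) = 40000000 ∧
      ent tabPM (3 * i + 2) = ent tabPP (3 * i + 2)) ∧
    (ent tabMP (3 * i) + ent tabPP (3 * i) = 40000000 ∧
      ent tabMP (3 * i + 1) = ent tabPP (3 * i + 1) ∧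
      ent tabMP (3 * i + 2) = ent tabPP (3 * i + 2)) ∧
    (ent tabMM (3 * i) + ent tabPP (3 * i) = 40000000 ∧
      ent tabMM (3 * i + 1) + ent tabPP (3 * i + 1) = 40000000 ∧
      ent tabMM (3 * i + 2) = ent tabPP (3 * i + 2)) := by
  decide +kernel

theorem oct {T : ℕ} (hT : Good T 9999700 (vec 1 0 0) (vec 0 1 0) (vec 0 0 1)) (s1 s2 c1 c2 : ℝ)
    (h : ∀ i ≤ 71, (ent T (3 * i) : ℝ) = s1 * ent tabPP (3 * i) + c1 ∧
      (ent T (3 * i + 1) : ℝ) = s2 * ent tabPP (3 * i + 1) + c2 ∧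
      (ent T (3 * i + 2) : ℝ) = ent tabPP (3 * i + 2)) (hs1 : s1 * s1 = 1) (hs2 : s2 * s2 = 1)
    (u : E3) (h1 : 0 ≤ s1 * u 0) (h2 : 0 ≤ s2 * u 1) (h3 : 0 ≤ u 2) :
    ∃ i ≤ 71, ∃ j ≤ 71, (9999700 : ℝ) * ‖u‖ ≤ ⟪pt tabPP i - pt tabPP j, u⟫ := by
  obtain ⟨i, hi, j, hj, hij⟩ := hT _ _ _ h1 h2 h3
  refine ⟨i, hi, j, hj, ?_⟩
  obtain ⟨a1, a2, a3⟩ := h i hi
  obtain ⟨b1, b2, b3⟩ := h j hj
  have e1 : ‖(s1 * u 0) • vec 1 0 0 + (s2 * u 1) • vec 0 1 0 + (u 2) • vec 0 0 1‖ = ‖u‖ := by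
    rw [← sq_eq_sq₀ (norm_nonneg _) (norm_nonneg _), EuclideanSpace.real_norm_sq_eq,
      EuclideanSpace.real_norm_sq_eq]
    simp [vec, Fin.sum_univ_three]
    linear_combination (u 0) ^ 2 * hs1 + (u 1) ^ 2 * hs2
  have e2 : ⟪pt T i - pt T j, (s1 * u 0) • vec 1 0 0 + (s2 * u 1) • vec 0 1 0 + (u 2) • vec 0 0 1⟫
      = ⟪pt tabPP i - pt tabPP j, u⟫ := by
    simp only [pt, vec, Fin.sum_univ_three, PiLp.inner_apply, a1, a2, a3, b1, b2, b3]
    simp
    linear_combination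
      (u 0) * ((ent tabPP (3 * i) : ℝ) - ent tabPP (3 * j)) * hs1 +
      (u 1) * ((ent tabPP (3 * i + 1) : ℝ) - ent tabPP (3 * j + 1)) * hs2
  rw [e1, e2] at hij
  exact_mod_cast hij

theorem width_half (u : E3) (h3 : 0 ≤ u 2) :
    ∃ i ≤ 71, ∃ j ≤ 71, (9999700 : ℝ) * ‖u‖ ≤ ⟪pt tabPP i - pt tabPP j, u⟫ := by
  rcases le_total 0 (u 0) with h1 | h1 <;> rcases le_total 0 (u 1) with h2 | h2
  · exact oct goodPP 1 1 0 0 (fun i _ => by simp) (by norm_num) (by norm_num) u (by linarith)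
      (by linarith) h3
  · refine oct goodPM 1 (-1) 0 40000000 (fun i hi => ?_) (by norm_num) (by norm_num) u
      (by linarith) (by linarith) h3
    obtain ⟨⟨a1, a2, a3⟩, -, -⟩ := tabs i hi
    have a2' : (ent tabPM (3 * i + 1) : ℝ) + ent tabPP (3 * i + 1) = 40000000 := by
      exact_mod_cast a2
    refine ⟨by rw [a1]; ring, by linarith, by rw [a3]⟩
  · refine oct goodMP (-1) 1 40000000 0 (fun i hi => ?_) (by norm_num) (by norm_num) u
      (by linarith) (by linarith) h3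
    obtain ⟨-, ⟨a1, a2, a3⟩, -⟩ := tabs i hi
    have a1' : (ent tabMP (3 * i) : ℝ) + ent tabPP (3 * i) = 40000000 := by
      exact_mod_cast a1
    refine ⟨by linarith, by rw [a2]; ring, by rw [a3]⟩
  · refine oct goodMM (-1) (-1) 40000000 40000000 (fun i hi => ?_) (by norm_num) (by norm_num) u
      (by linarith) (by linarith) h3
    obtain ⟨-, -, ⟨a1, a2, a3⟩⟩ := tabs i hi
    have a1' : (ent tabMM (3 * i) : ℝ) + ent tabPP (3 * i) = 40000000 := by
      exact_mod_cast a1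
    have a2' : (ent tabMM (3 * i + 1) : ℝ) + ent tabPP (3 * i + 1) = 40000000 := by
      exact_mod_cast a2
    refine ⟨by linarith, by linarith, by rw [a3]⟩

theorem width (u : E3) :
    ∃ i ≤ 71, ∃ j ≤ 71, (9999700 : ℝ) * ‖u‖ ≤ ⟪pt tabPP i - pt tabPP j, u⟫ := by
  rcases le_total 0 (u 2) with h | h
  · exact width_half u h
  · obtain ⟨i, hi, j, hj, hij⟩ := width_half (-u) (by simpa using h)
    refine ⟨j, hj, i, hi, ?_⟩
    rw [norm_neg, inner_neg_right, ← inner_neg_left, neg_sub] at hij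
    exact hij

theorem lens : (∀ i < 71,
    ((ent tabPP (3 * (i + 1)) : ℤ) - ent tabPP (3 * i)) ^ 2 +
      ((ent tabPP (3 * (i + 1) + 1) : ℤ) - ent tabPP (3 * i + 1)) ^ 2 +
      ((ent tabPP (3 * (i + 1) + 2) : ℤ) - ent tabPP (3 * i + 2)) ^ 2 ≤ (ent tabL i : ℤ) ^ 2) ∧
    ∑ i ∈ Finset.range 71, ent tabL i = 39053414 := by
  decide +kernel

theorem length_le : ∑ i ∈ Finset.range 71, ‖pt tabPP (i + 1) - pt tabPP i‖ ≤ 39053414 := by
  have h2 : ((∑ i ∈ Finset.range 71, ent tabL i : ℕ) : ℝ) = 39053414 := by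
    rw [lens.2]; norm_num
  rw [← h2, Nat.cast_sum]
  refine Finset.sum_le_sum fun i hi => ?_
  have h1 := lens.1 i (Finset.mem_range.1 hi)
  refine le_of_sq_le_sq ?_ (Nat.cast_nonneg _)
  rw [EuclideanSpace.real_norm_sq_eq]
  have h3 : ((ent tabPP (3 * (i + 1)) : ℝ) - ent tabPP (3 * i)) ^ 2 +
      ((ent tabPP (3 * (i + 1) + 1) : ℝ) - ent tabPP (3 * i + 1)) ^ 2 +
      ((ent tabPP (3 * (i + 1) + 2) : ℝ) - ent tabPP (3 * i + 2)) ^ 2 ≤ (ent tabL i : ℝ) ^ 2 := by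
    exact_mod_cast h1
  simpa [pt, vec, Fin.sum_univ_three] using h3

/-- A curve of length one with breadth at least `0.25605`. -/
theorem exists_curve : ∃ γ : ℝ → E3, Continuous γ ∧ eVariationOn γ (Icc 0 1) = 1 ∧
    ∀ u : E3, ‖u‖ = 1 → ∃ s ∈ Icc (0 : ℝ) 1, ∃ t ∈ Icc (0 : ℝ) 1,
      (0.25605 : ℝ) ≤ ⟪γ s, u⟫ - ⟪γ t, u⟫ := by
  set L : ℝ := ∑ i ∈ Finset.range 71, ‖pt tabPP (i + 1) - pt tabPP i‖ with hL
  have hL1 : L ≤ 39053414 := length_le
  have hL0 : 0 < L := by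
    have h0 : 0 ≤ L := Finset.sum_nonneg fun i _ => norm_nonneg _
    refine h0.lt_of_ne fun h => ?_
    have h1 := (Finset.sum_eq_zero_iff_of_nonneg (fun i _ => norm_nonneg _)).1 h.symm
    have h2 : ∀ i ≤ 71, pt tabPP i = pt tabPP 0 := by
      intro i hi
      induction i with
      | zero => rfl
      | succ k ih =>
        have := h1 k (Finset.mem_range.2 (by omega))
        rw [norm_eq_zero, sub_eq_zero] at this
        rw [this, ih (by omega)]
    obtain ⟨i, hi, j, hj, hij⟩ := width (EuclideanSpace.single 0 1)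
    rw [h2 i hi, h2 j hj] at hij
    simp at hij
    linarith
  obtain ⟨γ, hc, hv, hq⟩ := polygon (fun i => L⁻¹ • pt tabPP i) 71 (by norm_num)
  refine ⟨γ, hc, ?_, ?_⟩
  · rw [hv]
    have : ∑ i ∈ Finset.range 71, ‖L⁻¹ • pt tabPP (i + 1) - L⁻¹ • pt tabPP i‖ = 1 := by
      simp only [← smul_sub, norm_smul, ← Finset.mul_sum, ← hL, Real.norm_eq_abs,
        abs_of_pos (inv_pos.2 hL0)]
      exact inv_mul_cancel₀ hL0.ne'
    rw [this, ENNReal.ofReal_one]
  · intro u hu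
    obtain ⟨i, hi, j, hj, hij⟩ := width u
    obtain ⟨s, hs, hs'⟩ := hq i hi
    obtain ⟨t, ht, ht'⟩ := hq j hj
    refine ⟨s, hs, t, ht, ?_⟩
    rw [hs', ht', ← inner_sub_left, ← smul_sub, real_inner_smul_left, le_inv_mul_iff₀ hL0]
    rw [hu] at hij
    linarith

end Pool.Agent.Lib.MP_ee7495_gt
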